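import Mathlib

/-!
# UM : uniform transcendence measure for the number `E₂E₄/E₆` at points with algebraic `j`

`uc k e g t i f j`: value at the origin of the `t`-th derivative of `X^i Y^f G^j`, where `X' = Y`, `Y' = 6X² - g`,
`G' = k - X` and `X(0) = e`, `Y(0) = 0`, `G(0) = 0`. The curve is `Y² = 4X³ - 2gX - h`, `h = 4e³ - 2ge`.
-/

set_option autoImplicit false

noncomputable section

namespace Pool.Agent.Lib.UM

open Polynomial

/-- value at the origin of the `t`-th derivative of `X^i Y^f G^j` -/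
def uc {R : Type*} [CommRing R] (k e g : R) : ℕ → ℕ → ℕ → ℕ → R
  | 0, i, f, j => e ^ i * 0 ^ f * 0 ^ j
  | t + 1, i, f, j => (i : R) * uc k e g t (i - 1) (f + 1) j +
      (f : R) * (6 * uc k e g t (i + 2) (f - 1) j - g * uc k e g t i (f - 1) j) +
      (j : R) * (k * uc k e g t i f (j - 1) - uc k e g t (i + 1) f (j - 1))

/-- parameters: `k` arbitrary, `(e, g)` with nonzero discriminant -/
structure UP where
  k : ℂ
  e : ℂ
  g : ℂ
  h1 : 6 * e ^ 2 - g ≠ 0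
  h2 : 3 * e ^ 2 - 2 * g ≠ 0

/-- `4x³ - 2gx - h`, `h = 4e³ - 2ge` -/
def UP.c (p : UP) : ℂ[X] := C 4 * X ^ 3 + C 0 * X ^ 2 + C (-(2 * p.g)) * X +
  C (-(4 * p.e ^ 3 - 2 * p.g * p.e))

/-- `6x² - g` -/
def UP.d (p : UP) : ℂ[X] := C 6 * X ^ 2 + C (-p.g)

/-- the formal power series `X^i Y^f G^j` -/
def Phi (p : UP) (i f j : ℕ) : PowerSeries ℂ :=
  PowerSeries.mk (fun t => uc p.k p.e p.g t i f j / (t.factorial : ℂ))

/-- elements of `ℂ[X, Y]` of weight at most `w` (`X` has weight 2, `Y` weight 3) -/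
def Wt (p : UP) (w : ℕ) (f : PowerSeries ℂ) : Prop :=
  ∃ A B : ℂ[X], 2 * A.natDegree ≤ w ∧ (B = 0 ∨ 2 * B.natDegree + 3 ≤ w) ∧
    f = Polynomial.aeval (Phi p 1 0 0) A + Polynomial.aeval (Phi p 1 0 0) B * Phi p 0 1 0

/-- the derivation `Y ∂_X + (6X² - g) ∂_Y + (k - X) ∂_G` on coefficient sequences `∑ c_m G^m` -/
def dS (p : UP) (c : ℕ → PowerSeries ℂ) : ℕ → PowerSeries ℂ := fun m =>
  PowerSeries.derivative ℂ (c m) +
    ((m + 1 : ℕ) : PowerSeries ℂ) * (PowerSeries.C p.k - Phi p 1 0 0) * c (m + 1)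

end Pool.Agent.Lib.UM
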