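import Pool.Agent.Lib.UM.Defs

set_option autoImplicit false

noncomputable section

namespace Pool.Agent.Lib.UM

open Polynomial Topology

theorem eval_c (p : UP) (α : ℂ) : p.c.eval α =
    4 * α ^ 3 - 2 * p.g * α - (4 * p.e ^ 3 - 2 * p.g * p.e) := by
  unfold UP.c
  simp only [eval_add, eval_mul, eval_C, eval_pow, eval_X]
  ring

theorem eval_d (p : UP) (α : ℂ) : p.d.eval α = 6 * α ^ 2 - p.g := by
  unfold UP.d
  simp only [eval_add, eval_mul, eval_C, eval_pow, eval_X]
  ring

/-- the discriminant does not vanish -/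
theorem c_d_ne (p : UP) (α : ℂ) (hc : p.c.eval α = 0) : p.d.eval α ≠ 0 := by
  intro hd
  rw [eval_c] at hc
  rw [eval_d] at hd
  have hg : p.g = 6 * α ^ 2 := by linear_combination -hd
  have h3 : (α - p.e) * ((2 * α + p.e) * (α - p.e)) = 0 := by
    rw [hg] at hc
    linear_combination (-1 / 4 : ℂ) * hc
  have h4 : α = p.e → False := by
    intro h
    apply p.h1
    rw [hg, h]
    ring
  rcases mul_eq_zero.1 h3 with h | h
  · exact h4 (sub_eq_zero.1 h)
  · rcases mul_eq_zero.1 h with h | h
    · apply p.h2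
      have h5 : p.e = -2 * α := by linear_combination h
      rw [hg, h5]
      ring
    · exact h4 (sub_eq_zero.1 h)

private lemma zimp_const (p : UP) (e : ℕ) (he : 1 ≤ e) (q : ℂ) (hq : q ≠ 0) (E : ℂ[X])
    (h : derivative E * p.c + E * p.d =
      (e : ℂ[X]) * (X - C p.k) * C q) : False := by
  have he' : (e : ℂ) ≠ 0 := by
    have : e ≠ 0 := by omega
    exact_mod_cast this
  rcases eq_or_ne E 0 with rfl | hE
  · simp only [derivative_zero, zero_mul, add_zero] at h
    have h1 := congrArg (fun f : ℂ[X] => f.coeff 1) h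
    have e1 : ((e : ℂ[X]) * (X - C p.k) * C q).coeff 1 = e * q := by
      rw [coeff_mul_C, ← C_eq_natCast, coeff_C_mul, coeff_sub, coeff_X_one, coeff_C]
      simp
    simp only [coeff_zero, e1] at h1
    exact (mul_ne_zero he' hq) h1.symm
  · set k := E.natDegree with hk
    have h1 := congrArg (fun f : ℂ[X] => f.coeff (k + 2)) h
    have e1 : ((e : ℂ[X]) * (X - C p.k) * C q).coeff (k + 2) = 0 := by
      rw [coeff_mul_C, ← C_eq_natCast, coeff_C_mul, coeff_sub, coeff_X, coeff_C]
      simp
    have e2 : (derivative E * p.c + E * p.d).coeff (k + 2) =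
        (4 * k + 6) * E.coeff k := by
      have r1 : derivative E * p.c + E * p.d =
          C 4 * (derivative E * X ^ 3) - C (2 * p.g) * (derivative E * X) + C 6 * (E * X ^ 2) -
            C p.g * E - C (4 * p.e ^ 3 - 2 * p.g * p.e) * derivative E := by
        unfold UP.c UP.d
        rw [C_neg, C_neg, C_neg, C_0]
        ring
      have z1 : (derivative E).coeff (k + 1) = 0 := by
        rw [coeff_derivative, coeff_eq_zero_of_natDegree_lt (by omega), zero_mul]
      have z2 : E.coeff (k + 2) = 0 := coeff_eq_zero_of_natDegree_lt (by omega)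
      have z4 : (derivative E).coeff (k + 2) = 0 := by
        rw [coeff_derivative, coeff_eq_zero_of_natDegree_lt (by omega), zero_mul]
      have z3 : (derivative E * X ^ 3).coeff (k + 2) = k * E.coeff k := by
        rw [coeff_mul_X_pow']
        rcases Nat.eq_zero_or_pos k with h0 | h0
        · rw [if_neg (by omega), h0]
          simp
        · rw [if_pos (by omega), coeff_derivative]
          have : k + 2 - 3 + 1 = k := by omega
          rw [this]
          have hc : ((k + 2 - 3 : ℕ) : ℂ) + 1 = k := by exact_mod_cast this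
          rw [hc, mul_comm]
      rw [r1, coeff_sub, coeff_sub, coeff_add, coeff_sub, coeff_C_mul, coeff_C_mul, coeff_C_mul,
        coeff_C_mul, coeff_C_mul, z3, coeff_mul_X, z1, coeff_mul_X_pow, z2, z4]
      ring
    simp only [e1, e2] at h1
    have h2 : E.coeff k ≠ 0 := by
      rw [hk]
      exact leadingCoeff_ne_zero.2 hE
    have h3 : (4 * (k : ℂ) + 6) ≠ 0 := by
      have : ((4 * k + 6 : ℕ) : ℂ) ≠ 0 := Nat.cast_ne_zero.2 (by omega)
      push_cast at this
      exact this
    exact (mul_ne_zero h3 h2) h1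

private lemma zimp_cop (p : UP) (e : ℕ) (he : 1 ≤ e) (Q E : ℂ[X]) (hQ : Q ≠ 0)
    (hc : IsCoprime Q E)
    (h : (Q * derivative E - E * derivative Q) * p.c + Q * E * p.d =
      (e : ℂ[X]) * (X - C p.k) * Q ^ 2) : False := by
  rcases Nat.eq_zero_or_pos Q.natDegree with h0 | h0
  · obtain ⟨q, rfl⟩ : ∃ q, Q = C q := ⟨Q.coeff 0, eq_C_of_natDegree_eq_zero h0⟩
    have hq : q ≠ 0 := fun hq0 => hQ (by rw [hq0, C_0])
    refine zimp_const p e he q hq E ?_
    have hCq : (C q : ℂ[X]) ≠ 0 := hQ
    apply mul_left_cancel₀ hCq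
    rw [derivative_C, mul_zero, sub_zero] at h
    linear_combination h
  · obtain ⟨α, hα⟩ := Complex.exists_root (f := Q) (natDegree_pos_iff_degree_pos.1 h0)
    have hEα : E.eval α ≠ 0 := by
      intro hE0
      obtain ⟨u, v, huv⟩ := hc
      have := congrArg (eval α) huv
      rw [eval_add, eval_mul, eval_mul, hE0, hα.eq_zero, mul_zero, mul_zero, add_zero,
        eval_one] at this
      exact zero_ne_one this
    obtain ⟨Q2, hQ2, hnd⟩ := exists_eq_pow_rootMultiplicity_mul_and_not_dvd Q hQ α
    set m := rootMultiplicity α Q with hm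
    have hm1 : 1 ≤ m := (rootMultiplicity_pos hQ).2 hα
    have hQ2α : Q2.eval α ≠ 0 := fun h00 => hnd (dvd_iff_isRoot.2 h00)
    obtain ⟨r, hr⟩ : ∃ r, m = r + 1 := ⟨m - 1, by omega⟩
    have hX : (X - C α : ℂ[X]) ≠ 0 := X_sub_C_ne_zero α
    have hQ' : derivative Q = (X - C α) ^ r * (C (m : ℂ) * Q2 + (X - C α) * derivative Q2) := by
      rw [hQ2, hr, derivative_mul, derivative_X_sub_C_pow]
      push_cast
      ring
    have step1 : (X - C α) * Q2 * (derivative E * p.c + E * p.d -
        (e : ℂ[X]) * (X - C p.k) * Q) =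
        E * p.c * (C (m : ℂ) * Q2 + (X - C α) * derivative Q2) := by
      apply mul_left_cancel₀ (pow_ne_zero r hX)
      have e1 : (X - C α) ^ r * ((X - C α) * Q2 *
          (derivative E * p.c + E * p.d -
          (e : ℂ[X]) * (X - C p.k) * Q)) =
          Q * (derivative E * p.c + E * p.d -
          (e : ℂ[X]) * (X - C p.k) * Q) := by
        have : Q = (X - C α) ^ r * (X - C α) * Q2 := by
          rw [← pow_succ, ← hr]
          exact hQ2
        calc _ = ((X - C α) ^ r * (X - C α) * Q2) *
              (derivative E * p.c + E * p.d -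
              (e : ℂ[X]) * (X - C p.k) * Q) := by ring
          _ = _ := by rw [← this]
      rw [e1]
      have e2 : (X - C α) ^ r * (E * p.c *
          (C (m : ℂ) * Q2 + (X - C α) * derivative Q2)) =
          E * derivative Q * p.c := by
        rw [hQ']
        ring
      rw [e2]
      linear_combination h
    have hmne : (m : ℂ) ≠ 0 := by
      have : m ≠ 0 := by omega
      exact_mod_cast this
    have hcα : p.c.eval α = 0 := by
      have h2 := congrArg (eval α) step1
      simp only [eval_mul, eval_sub, eval_add, eval_X, eval_C, sub_self, zero_mul, eval_pow,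
        eval_ofNat, add_zero] at h2
      have h3 : E.eval α * p.c.eval α * ((m : ℂ) * Q2.eval α) = 0 := h2.symm
      rcases mul_eq_zero.1 h3 with h4 | h4
      · rcases mul_eq_zero.1 h4 with h5 | h5
        · exact absurd h5 hEα
        · exact h5
      · exact absurd h4 (mul_ne_zero hmne hQ2α)
    obtain ⟨c1, hcf⟩ := dvd_iff_isRoot.2 hcα
    have hc1 : c1.eval α = 2 * p.d.eval α := by
      have h2 := congrArg (fun f : ℂ[X] => (derivative f).eval α) hcf
      have h3 : derivative p.c = C 2 * p.d := by
        have e1 : (C 2 : ℂ[X]) * C 6 = C 4 * C 3 := by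
          rw [← C_mul, ← C_mul]
          norm_num
        have e2 : (C 2 : ℂ[X]) * C (-p.g) = C (-(2 * p.g)) := by
          rw [← C_mul]
          congr 1
          ring
        unfold UP.c UP.d
        rw [derivative_add, derivative_add, derivative_add, derivative_C, derivative_C_mul,
          derivative_C_mul, derivative_C_mul, derivative_X_pow, derivative_X_pow, derivative_X, C_0,
          mul_add, e2]
        push_cast
        linear_combination (-(X ^ 2) : ℂ[X]) * e1
      simp only [h3, derivative_mul, derivative_sub, derivative_X, derivative_C, sub_zero,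
        one_mul, eval_add, eval_mul, eval_C, eval_sub, eval_X, sub_self, zero_mul, add_zero] at h2
      exact h2.symm
    have step2 : Q2 * (derivative E * p.c + E * p.d -
        (e : ℂ[X]) * (X - C p.k) * Q) =
        E * c1 * (C (m : ℂ) * Q2 + (X - C α) * derivative Q2) := by
      apply mul_left_cancel₀ hX
      have e3 : (X - C α) * (E * c1 * (C (m : ℂ) * Q2 + (X - C α) * derivative Q2)) =
          E * p.c * (C (m : ℂ) * Q2 + (X - C α) * derivative Q2) := by
        rw [hcf]
        ring
      rw [e3, ← step1]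
      ring
    have h2 := congrArg (eval α) step2
    simp only [eval_mul, eval_sub, eval_add, eval_X, eval_C, sub_self, zero_mul, eval_pow,
      eval_ofNat, add_zero, hα.eq_zero, mul_zero, sub_zero, hcα, zero_add, hc1] at h2
    have h3 : (E.eval α * Q2.eval α) * (p.d.eval α * (1 - 2 * m)) = 0 := by
      linear_combination h2
    rcases mul_eq_zero.1 h3 with h4 | h4
    · exact (mul_ne_zero hEα hQ2α) h4
    · rcases mul_eq_zero.1 h4 with h5 | h5
      · exact c_d_ne p α hcα h5
      · have h6 : (2 * (m : ℂ)) = 1 := by linear_combination -h5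
        have h7 : 2 * m = 1 := by exact_mod_cast h6
        omega

theorem zimp (p : UP) (e : ℕ) (he : 1 ≤ e) (Q E : ℂ[X]) (hQ : Q ≠ 0) :
    (Q * derivative E - E * derivative Q) * p.c + Q * E * p.d ≠
      (e : ℂ[X]) * (X - C p.k) * Q ^ 2 := by
  intro h
  obtain ⟨g, Q1, E1, hg, hcop, hQ1, hE1⟩ : ∃ g Q1 E1 : ℂ[X], g ≠ 0 ∧ IsCoprime Q1 E1 ∧
      Q = g * Q1 ∧ E = g * E1 := by
    have hgne : EuclideanDomain.gcd Q E ≠ 0 := fun h0 => hQ (EuclideanDomain.gcd_eq_zero_iff.1 h0).1
    obtain ⟨Q1, hQ1⟩ := EuclideanDomain.gcd_dvd_left Q E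
    obtain ⟨E1, hE1⟩ := EuclideanDomain.gcd_dvd_right Q E
    refine ⟨EuclideanDomain.gcd Q E, Q1, E1, hgne, ?_, hQ1, hE1⟩
    have h1 := EuclideanDomain.gcd_eq_gcd_ab Q E
    refine ⟨EuclideanDomain.gcdA Q E, EuclideanDomain.gcdB Q E, ?_⟩
    apply mul_left_cancel₀ hgne
    rw [mul_one]
    calc _ = (EuclideanDomain.gcd Q E * Q1) * EuclideanDomain.gcdA Q E +
          (EuclideanDomain.gcd Q E * E1) * EuclideanDomain.gcdB Q E := by ring
      _ = Q * EuclideanDomain.gcdA Q E + E * EuclideanDomain.gcdB Q E := by rw [← hQ1, ← hE1]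
      _ = _ := h1.symm
  have hQ1ne : Q1 ≠ 0 := fun h0 => hQ (by rw [hQ1, h0, mul_zero])
  refine zimp_cop p e he Q1 E1 hQ1ne hcop ?_
  apply mul_left_cancel₀ (pow_ne_zero 2 hg)
  rw [hQ1, hE1, derivative_mul, derivative_mul] at h
  linear_combination h

end Pool.Agent.Lib.UM
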