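import Pool.Agent.Lib.UM.Zps

set_option autoImplicit false

noncomputable section

namespace Pool.Agent.Lib.UM

open Polynomial Topology

theorem Wt.mono {p : UP} {w w' : ℕ} {f : PowerSeries ℂ} (h : Wt p w f) (hw : w ≤ w') :
    Wt p w' f := by
  obtain ⟨A, B, h1, h2, h3⟩ := h
  exact ⟨A, B, h1.trans hw, h2.imp id (fun h => h.trans hw), h3⟩

theorem Wt_C (p : UP) (b : ℂ) : Wt p 0 (PowerSeries.C b) := by
  refine ⟨C b, 0, by simp, Or.inl rfl, ?_⟩
  rw [aeval_C, map_zero, zero_mul, add_zero]
  rfl

theorem Wt_X (p : UP) : Wt p 2 (Phi p 1 0 0) := by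
  refine ⟨X, 0, by simp, Or.inl rfl, ?_⟩
  rw [aeval_X, map_zero, zero_mul, add_zero]

theorem Wt_Y (p : UP) : Wt p 3 (Phi p 0 1 0) := by
  refine ⟨0, 1, by simp, Or.inr (by simp), ?_⟩
  rw [map_zero, map_one, one_mul, zero_add]

theorem Wt.add {p : UP} {w : ℕ} {f g : PowerSeries ℂ} (hf : Wt p w f) (hg : Wt p w g) :
    Wt p w (f + g) := by
  obtain ⟨A, B, h1, h2, h3⟩ := hf
  obtain ⟨A', B', h1', h2', h3'⟩ := hg
  refine ⟨A + A', B + B', ?_, ?_, ?_⟩
  · have := natDegree_add_le A A'
    omega
  · by_cases h0 : B + B' = 0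
    · exact Or.inl h0
    · right
      have := natDegree_add_le B B'
      rcases h2 with h2 | h2 <;> rcases h2' with h2' | h2'
      · exact absurd (by rw [h2, h2', add_zero]) h0
      · rw [h2, zero_add]; exact h2'
      · rw [h2', add_zero]; exact h2
      · omega
  · rw [h3, h3', map_add, map_add]
    ring

theorem Wt.neg {p : UP} {w : ℕ} {f : PowerSeries ℂ} (hf : Wt p w f) : Wt p w (-f) := by
  obtain ⟨A, B, h1, h2, h3⟩ := hf
  refine ⟨-A, -B, by rwa [natDegree_neg], ?_, ?_⟩
  · rw [natDegree_neg]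
    exact h2.imp (fun h => by rw [h, neg_zero]) id
  · rw [h3, map_neg, map_neg]
    ring

lemma zwtA_c (p : UP) : p.c.natDegree = 3 := natDegree_cubic (by norm_num)

private lemma zwtA_d (p : UP) : p.d.natDegree ≤ 2 := by
  unfold UP.d
  refine (natDegree_add_le _ _).trans (max_le ?_ ?_)
  · exact (natDegree_C_mul_X_pow_le 6 2)
  · rw [natDegree_C]; norm_num

theorem zwtA_aeval_c (p : UP) : aeval (Phi p 1 0 0) p.c = Phi p 0 1 0 ^ 2 := by
  rw [Y_sq]
  have hC : ∀ a : ℂ, (algebraMap ℂ (PowerSeries ℂ)) a = PowerSeries.C a := fun a => rfl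
  unfold UP.c
  simp only [map_add, map_mul, map_pow, aeval_X, aeval_C, hC, map_neg, map_ofNat, map_zero]
  simp only [map_sub, map_mul, map_ofNat, map_pow]
  ring

theorem zwtA_aeval_d (p : UP) : aeval (Phi p 1 0 0) p.d =
    PowerSeries.derivative ℂ (Phi p 0 1 0) := by
  rw [dY]
  have hC : ∀ a : ℂ, (algebraMap ℂ (PowerSeries ℂ)) a = PowerSeries.C a := fun a => rfl
  unfold UP.d
  simp only [map_add, map_mul, map_pow, aeval_X, aeval_C, hC, map_neg, map_ofNat]
  ring

theorem Wt.mul {p : UP} {w w' : ℕ} {f g : PowerSeries ℂ} (hf : Wt p w f) (hg : Wt p w' g) :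
    Wt p (w + w') (f * g) := by
  obtain ⟨A, B, h1, h2, h3⟩ := hf
  obtain ⟨A', B', h1', h2', h3'⟩ := hg
  refine ⟨A * A' + B * B' * p.c, A * B' + B * A', ?_, ?_, ?_⟩
  · have e1 := natDegree_add_le (A * A') (B * B' * p.c)
    have e2 := natDegree_mul_le (p := A) (q := A')
    by_cases hB : B * B' = 0
    · rw [hB, zero_mul, add_zero]
      omega
    · have hB1 := left_ne_zero_of_mul hB
      have hB2 := right_ne_zero_of_mul hB
      have e3 := natDegree_mul_le (p := B * B') (q := p.c)
      have e4 := natDegree_mul_le (p := B) (q := B')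
      have e5 := zwtA_c p
      have e6 := h2.resolve_left hB1
      have e7 := h2'.resolve_left hB2
      omega
  · by_cases h0 : A * B' + B * A' = 0
    · exact Or.inl h0
    · right
      have e1 := natDegree_mul_le (p := A) (q := B')
      have e2 := natDegree_mul_le (p := B) (q := A')
      have e3 := natDegree_add_le (A * B') (B * A')
      rcases h2 with h2 | h2 <;> rcases h2' with h2' | h2'
      · exact absurd (by rw [h2, h2', mul_zero, zero_mul, add_zero]) h0
      · rw [h2, zero_mul, add_zero]; omega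
      · rw [h2', mul_zero, zero_add]; omega
      · omega
  · rw [h3, h3']
    simp only [map_add, map_mul (aeval (Phi p 1 0 0))]
    rw [← map_mul (aeval (Phi p 1 0 0)) B B']
    have e1 := zwtA_aeval_c p
    simp only [map_sub, map_mul] at e1 ⊢
    rw [e1]
    ring

theorem zwtA_deriv (p : UP) (A : ℂ[X]) :
    PowerSeries.derivative ℂ (aeval (Phi p 1 0 0) A) =
      aeval (Phi p 1 0 0) (derivative A) * Phi p 0 1 0 := by
  rw [Derivation.map_aeval, dX, smul_eq_mul]

theorem Wt.deriv {p : UP} {w : ℕ} {f : PowerSeries ℂ} (hf : Wt p w f) :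
    Wt p (w + 1) (PowerSeries.derivative ℂ f) := by
  obtain ⟨A, B, h1, h2, h3⟩ := hf
  refine ⟨derivative B * p.c + B * p.d, derivative A, ?_, ?_, ?_⟩
  · by_cases hB : B = 0
    · rw [hB, derivative_zero, zero_mul, zero_mul, add_zero, natDegree_zero]
      omega
    · have e0 := h2.resolve_left hB
      have e1 := natDegree_add_le (derivative B * p.c) (B * p.d)
      have e2 := natDegree_mul_le (p := derivative B) (q := p.c)
      have e3 := natDegree_mul_le (p := B) (q := p.d)
      have e4 := zwtA_c p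
      have e5 := zwtA_d p
      have e6 := natDegree_derivative_le B
      by_cases hd : B.natDegree = 0
      · have h7 : derivative B = 0 := derivative_of_natDegree_zero hd
        rw [h7, zero_mul, zero_add]
        omega
      · omega
  · by_cases hd : A.natDegree = 0
    · exact Or.inl (derivative_of_natDegree_zero hd)
    · right
      have e6 := natDegree_derivative_le A
      omega
  · rw [h3, map_add, Derivation.leibniz, zwtA_deriv, zwtA_deriv, map_add, map_mul, map_mul,
      zwtA_aeval_c, zwtA_aeval_d, smul_eq_mul, smul_eq_mul]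
    ring

private lemma zwtA_sum {p : UP} {w : ℕ} {ι : Type*} (s : Finset ι) (f : ι → PowerSeries ℂ)
    (h : ∀ i ∈ s, Wt p w (f i)) : Wt p w (∑ i ∈ s, f i) := by
  classical
  induction s using Finset.induction_on with
  | empty =>
    rw [Finset.sum_empty]
    have := (Wt_C p 0).mono (Nat.zero_le w)
    rwa [map_zero] at this
  | insert a s ha ih =>
    rw [Finset.sum_insert ha]
    exact (h a (Finset.mem_insert_self a s)).add
      (ih fun i hi => h i (Finset.mem_insert_of_mem hi))

private lemma zwtA_prod {p : UP} {ι : Type*} (s : Finset ι) (w : ι → ℕ)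
    (f : ι → PowerSeries ℂ) (h : ∀ i ∈ s, Wt p (w i) (f i)) :
    Wt p (∑ i ∈ s, w i) (∏ i ∈ s, f i) := by
  classical
  induction s using Finset.induction_on with
  | empty =>
    rw [Finset.sum_empty, Finset.prod_empty]
    have := Wt_C p 1
    rwa [map_one] at this
  | insert a s ha ih =>
    rw [Finset.sum_insert ha, Finset.prod_insert ha]
    exact (h a (Finset.mem_insert_self a s)).mul
      (ih fun i hi => h i (Finset.mem_insert_of_mem hi))

theorem Wt.det {p : UP} {n : ℕ} (M : Matrix (Fin n) (Fin n) (PowerSeries ℂ)) (w : Fin n → ℕ)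
    (h : ∀ i j, Wt p (w i) (M i j)) : Wt p (∑ i, w i) M.det := by
  rw [Matrix.det_apply]
  refine zwtA_sum _ _ fun σ _ => ?_
  have h1 : Wt p (∑ i, w i) (∏ i, M (σ i) i) := by
    have h2 := zwtA_prod Finset.univ (fun i => w (σ i)) (fun i => M (σ i) i)
      (fun i _ => h (σ i) i)
    rwa [Equiv.sum_comp σ w] at h2
  rcases Int.units_eq_one_or (Equiv.Perm.sign σ) with h3 | h3
  · rw [h3, one_smul]
    exact h1
  · rw [h3, Units.neg_smul, one_smul]
    exact h1.neg

end Pool.Agent.Lib.UM
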