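import Pool.Agent.Lib.UM.Zimp
import Pool.Agent.Lib.UM.ZwtA
import Pool.Agent.Lib.UM.ZwtB

set_option autoImplicit false

noncomputable section

namespace Pool.Agent.Lib.UM

open Polynomial Topology

theorem zimp2 (p : UP) (e : ℕ) (he : 1 ≤ e) (wu wv : ℕ) (u v : PowerSeries ℂ) (hu : Wt p wu u)
    (hv : Wt p wv v) (hv0 : v ≠ 0) :
    v * PowerSeries.derivative ℂ u - u * PowerSeries.derivative ℂ v +
      (e : PowerSeries ℂ) * (PowerSeries.C p.k - Phi p 1 0 0) * v ^ 2 ≠ 0 := by
  intro h
  obtain ⟨A1, B1, -, -, hu⟩ := hu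
  obtain ⟨A2, B2, -, -, hv⟩ := hv
  set x := Phi p 1 0 0 with hx
  set y := Phi p 0 1 0 with hy
  have hc : aeval x p.c = y ^ 2 := zwtA_aeval_c p
  have hd : aeval x p.d = PowerSeries.derivative ℂ y := zwtA_aeval_d p
  have hD : ∀ A : ℂ[X], PowerSeries.derivative ℂ (aeval x A) = aeval x (derivative A) * y :=
    zwtA_deriv p
  set s : PowerSeries ℂ := aeval x A2 - aeval x B2 * y with hs
  have hs0 : s ≠ 0 := by
    intro h0
    have h1 : aeval x A2 + aeval x (-B2) * y = 0 := by
      rw [map_neg]
      rw [hs] at h0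
      linear_combination h0
    obtain ⟨h2, h3⟩ := Wt_unique p A2 (-B2) h1
    rw [neg_eq_zero] at h3
    apply hv0
    rw [hv, h2, h3]
    simp
  set Q : ℂ[X] := A2 ^ 2 - B2 ^ 2 * p.c with hQ
  set Cc : ℂ[X] := A1 * A2 - B1 * B2 * p.c with hCc
  set E : ℂ[X] := B1 * A2 - A1 * B2 with hE
  have hQv : aeval x Q = v * s := by
    rw [hQ, map_sub, map_mul, map_pow, map_pow, hc, hv, hs]
    ring
  have hUs : aeval x Cc + aeval x E * y = u * s := by
    rw [hCc, hE, map_sub, map_sub, map_mul, map_mul, map_mul, map_mul, map_mul, hc, hu, hs]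
    ring
  have hQ0 : Q ≠ 0 := by
    intro h0
    rw [h0, map_zero] at hQv
    exact (mul_ne_zero hv0 hs0) hQv.symm
  -- the transferred equation
  have hcb : y * PowerSeries.derivative ℂ y = y * aeval x p.d := by rw [hd]
  have dQ : PowerSeries.derivative ℂ (v * s) = aeval x (derivative Q) * y := by
    rw [← hQv, hD]
  have dU : PowerSeries.derivative ℂ (u * s) = aeval x (derivative Cc) * y +
      (aeval x (derivative E) * y ^ 2 + aeval x E * PowerSeries.derivative ℂ y) := by
    rw [← hUs, map_add, Derivation.leibniz, hD, hD, smul_eq_mul, smul_eq_mul]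
    ring
  have dv : PowerSeries.derivative ℂ (v * s) = v * PowerSeries.derivative ℂ s +
      s * PowerSeries.derivative ℂ v := by
    rw [Derivation.leibniz, smul_eq_mul, smul_eq_mul]
  have du : PowerSeries.derivative ℂ (u * s) = u * PowerSeries.derivative ℂ s +
      s * PowerSeries.derivative ℂ u := by
    rw [Derivation.leibniz, smul_eq_mul, smul_eq_mul]
  have key : aeval x Q * (aeval x (derivative Cc) * y +
      (aeval x (derivative E) * y ^ 2 + aeval x E * PowerSeries.derivative ℂ y)) -
      (aeval x Cc + aeval x E * y) * (aeval x (derivative Q) * y) =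
      (e : PowerSeries ℂ) * (x - PowerSeries.C p.k) * aeval x Q ^ 2 := by
    rw [← dU, ← dQ, hQv, hUs, dv, du]
    linear_combination (s ^ 2) * h
  have h1 : aeval x (Q * (derivative E * p.c + E * p.d) -
      E * derivative Q * p.c - (e : ℂ[X]) * (X - C p.k) * Q ^ 2) +
      aeval x (Q * derivative Cc - Cc * derivative Q) * y = 0 := by
    have hc' := hc
    have hd' := hd
    simp only [map_sub, map_add, map_mul, map_pow, map_natCast] at hc' hd' ⊢
    rw [hc', hd', aeval_X, aeval_C]
    have hC : (algebraMap ℂ (PowerSeries ℂ)) p.k = PowerSeries.C p.k := rfl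
    rw [hC]
    linear_combination key
  obtain ⟨h2, -⟩ := Wt_unique p _ _ h1
  apply zimp p e he Q E hQ0
  linear_combination h2

end Pool.Agent.Lib.UM
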