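import Pool.Agent.Lib.UM.Zimp2

set_option autoImplicit false

noncomputable section

namespace Pool.Agent.Lib.UM

open Polynomial Topology

private def WW (p : UP) (f : PowerSeries ℂ) : Prop := ∃ w, Wt p w f

private theorem WW_add {p : UP} {f g : PowerSeries ℂ} (hf : WW p f) (hg : WW p g) :
    WW p (f + g) := by
  obtain ⟨w, hw⟩ := hf
  obtain ⟨w', hw'⟩ := hg
  exact ⟨max w w', (hw.mono (le_max_left _ _)).add (hw'.mono (le_max_right _ _))⟩

private theorem WW_mul {p : UP} {f g : PowerSeries ℂ} (hf : WW p f) (hg : WW p g) :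
    WW p (f * g) := by
  obtain ⟨w, hw⟩ := hf
  obtain ⟨w', hw'⟩ := hg
  exact ⟨w + w', hw.mul hw'⟩

private theorem WW_neg {p : UP} {f : PowerSeries ℂ} (hf : WW p f) : WW p (-f) := by
  obtain ⟨w, hw⟩ := hf
  exact ⟨w, hw.neg⟩

private theorem WW_sub {p : UP} {f g : PowerSeries ℂ} (hf : WW p f) (hg : WW p g) :
    WW p (f - g) := by
  rw [sub_eq_add_neg]
  exact WW_add hf (WW_neg hg)

private theorem WW_deriv {p : UP} {f : PowerSeries ℂ} (hf : WW p f) :
    WW p (PowerSeries.derivative ℂ f) := by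
  obtain ⟨w, hw⟩ := hf
  exact ⟨w + 1, hw.deriv⟩

private theorem WW_C (p : UP) (b : ℂ) : WW p (PowerSeries.C b) := ⟨0, Wt_C p b⟩

private theorem WW_nat (p : UP) (n : ℕ) : WW p (n : PowerSeries ℂ) := by
  have h : (n : PowerSeries ℂ) = PowerSeries.C (n : ℂ) := by simp
  rw [h]
  exact WW_C p _

private theorem WW_dS {p : UP} {q : ℕ → PowerSeries ℂ} (hq : ∀ m, WW p (q m)) (m : ℕ) :
    WW p (dS p q m) := by
  unfold dS
  exact WW_add (WW_deriv (hq m))
    (WW_mul (WW_mul (WW_nat p _) (WW_sub (WW_C p p.k) ⟨2, Wt_X p⟩)) (hq _))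

/-- the elimination sequence -/
private def QQ (p : UP) (e : ℕ) (c : ℕ → PowerSeries ℂ) : ℕ → ℕ → PowerSeries ℂ
  | 0 => c
  | k + 1 => fun m => QQ p e c k (e - k) * dS p (QQ p e c k) m -
      PowerSeries.derivative ℂ (QQ p e c k (e - k)) * QQ p e c k m

private theorem QQ_WW (p : UP) (e : ℕ) (c : ℕ → PowerSeries ℂ) (hc : ∀ m, WW p (c m)) (k : ℕ) :
    ∀ m, WW p (QQ p e c k m) := by
  induction k with
  | zero => exact hc
  | succ k ih =>
    intro m
    exact WW_sub (WW_mul (ih _) (WW_dS ih m)) (WW_mul (WW_deriv (ih _)) (ih m))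

private theorem QQ_zero (p : UP) (e : ℕ) (c : ℕ → PowerSeries ℂ)
    (hz : ∀ m, e < m → c m = 0) (k : ℕ) (hk : k ≤ e) : ∀ m, e - k < m → QQ p e c k m = 0 := by
  induction k with
  | zero => intro m hm; exact hz m (by omega)
  | succ k ih =>
    intro m hm
    have ih' := ih (by omega)
    have h1 : QQ p e c k (m + 1) = 0 := ih' _ (by omega)
    show QQ p e c k (e - k) * dS p (QQ p e c k) m -
      PowerSeries.derivative ℂ (QQ p e c k (e - k)) * QQ p e c k m = 0
    unfold dS
    rw [h1]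
    rcases Nat.eq_or_lt_of_le (show e - k ≤ m by omega) with h | h
    · rw [← h]
      ring
    · rw [ih' m h]
      simp

private theorem QQ_lc (p : UP) (e : ℕ) (c : ℕ → PowerSeries ℂ) (hc : ∀ m, WW p (c m))
    (he : c e ≠ 0) (hz : ∀ m, e < m → c m = 0) (k : ℕ) (hk : k ≤ e) :
    QQ p e c k (e - k) ≠ 0 := by
  induction k with
  | zero => simpa [QQ] using he
  | succ k ih =>
    have ih' := ih (by omega)
    obtain ⟨wu, hu⟩ := QQ_WW p e c hc k (e - (k + 1))
    obtain ⟨wv, hv⟩ := QQ_WW p e c hc k (e - k)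
    have h := zimp2 p (e - k) (by omega) wu wv _ _ hu hv ih'
    have h2 : e - (k + 1) + 1 = e - k := by omega
    show QQ p e c k (e - k) * dS p (QQ p e c k) (e - (k + 1)) -
      PowerSeries.derivative ℂ (QQ p e c k (e - k)) * QQ p e c k (e - (k + 1)) ≠ 0
    intro h3
    apply h
    rw [← h3]
    unfold dS
    rw [h2]
    ring

/-- the span statement -/
private theorem QQ_span (p : UP) (e : ℕ) (c : ℕ → PowerSeries ℂ) (k : ℕ) :
    ∃ a : ℕ → PowerSeries ℂ, ∀ m, QQ p e c k m =
      ∑ j ∈ Finset.range (k + 1), a j * ((dS p)^[j] c) m := by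
  induction k with
  | zero => exact ⟨fun _ => 1, fun m => by simp [QQ]⟩
  | succ k ih =>
    obtain ⟨a, ha⟩ := ih
    have hdS : ∀ m, dS p (QQ p e c k) m =
        ∑ j ∈ Finset.range (k + 1), PowerSeries.derivative ℂ (a j) * ((dS p)^[j] c) m +
        ∑ j ∈ Finset.range (k + 1), a j * ((dS p)^[j + 1] c) m := by
      intro m
      have h1 : dS p (QQ p e c k) m = PowerSeries.derivative ℂ (QQ p e c k m) +
        ((m + 1 : ℕ) : PowerSeries ℂ) * (PowerSeries.C p.k - Phi p 1 0 0) *
          QQ p e c k (m + 1) := rfl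
      rw [h1, ha m, ha (m + 1), map_sum, Finset.mul_sum, ← Finset.sum_add_distrib,
        ← Finset.sum_add_distrib]
      refine Finset.sum_congr rfl fun j _ => ?_
      rw [Function.iterate_succ_apply']
      have h2 : dS p ((dS p)^[j] c) m = PowerSeries.derivative ℂ (((dS p)^[j] c) m) +
        ((m + 1 : ℕ) : PowerSeries ℂ) * (PowerSeries.C p.k - Phi p 1 0 0) *
          ((dS p)^[j] c) (m + 1) := rfl
      rw [h2, Derivation.leibniz, smul_eq_mul, smul_eq_mul]
      ring
    refine ⟨fun j => (if j ≤ k then QQ p e c k (e - k) * PowerSeries.derivative ℂ (a j) -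
        PowerSeries.derivative ℂ (QQ p e c k (e - k)) * a j else 0) +
        (if j = 0 then 0 else QQ p e c k (e - k) * a (j - 1)), fun m => ?_⟩
    have h0 : QQ p e c (k + 1) m = QQ p e c k (e - k) * dS p (QQ p e c k) m -
      PowerSeries.derivative ℂ (QQ p e c k (e - k)) * QQ p e c k m := rfl
    rw [h0, hdS m]
    simp only [add_mul, Finset.sum_add_distrib]
    rw [Finset.sum_range_succ (fun j => (if j ≤ k then _ else _) * _)]
    rw [Finset.sum_range_succ' (fun j => (if j = 0 then _ else _) * _)]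
    have e1 : ∑ j ∈ Finset.range (k + 1), (if j ≤ k then
        QQ p e c k (e - k) * PowerSeries.derivative ℂ (a j) -
        PowerSeries.derivative ℂ (QQ p e c k (e - k)) * a j else 0) * ((dS p)^[j] c) m =
        QQ p e c k (e - k) *
          ∑ j ∈ Finset.range (k + 1), PowerSeries.derivative ℂ (a j) * ((dS p)^[j] c) m -
        PowerSeries.derivative ℂ (QQ p e c k (e - k)) * QQ p e c k m := by
      rw [ha m, Finset.mul_sum, Finset.mul_sum, ← Finset.sum_sub_distrib]
      refine Finset.sum_congr rfl fun j hj => ?_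
      rw [if_pos (by have := Finset.mem_range.mp hj; omega)]
      ring
    have e2 : ∑ j ∈ Finset.range (k + 1), (if j + 1 = 0 then 0 else
        QQ p e c k (e - k) * a (j + 1 - 1)) * ((dS p)^[j + 1] c) m =
        QQ p e c k (e - k) *
          ∑ j ∈ Finset.range (k + 1), a j * ((dS p)^[j + 1] c) m := by
      rw [Finset.mul_sum]
      refine Finset.sum_congr rfl fun j hj => ?_
      rw [if_neg (by omega), Nat.add_sub_cancel]
      ring
    rw [e1, e2, if_neg (by omega), if_pos rfl]
    ring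

theorem zlin (p : UP) (e : ℕ) (c : ℕ → PowerSeries ℂ) (hc : ∀ m, ∃ w, Wt p w (c m))
    (he : c e ≠ 0) (hz : ∀ m, e < m → c m = 0) :
    (Matrix.of fun (k m : Fin (e + 1)) => ((dS p)^[(k : ℕ)] c) (m : ℕ)).det ≠ 0 := by
  classical
  set M : Matrix (Fin (e + 1)) (Fin (e + 1)) (PowerSeries ℂ) :=
    Matrix.of fun (k m : Fin (e + 1)) => ((dS p)^[(k : ℕ)] c) (m : ℕ) with hM
  choose a ha using QQ_span p e c
  let A : Matrix (Fin (e + 1)) (Fin (e + 1)) (PowerSeries ℂ) :=
    Matrix.of fun (k j : Fin (e + 1)) => if (j : ℕ) ≤ k then a k j else 0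
  let Q : Matrix (Fin (e + 1)) (Fin (e + 1)) (PowerSeries ℂ) :=
    Matrix.of fun (k m : Fin (e + 1)) => QQ p e c k m
  have hAM : Q = A * M := by
    ext1 k m
    rw [Matrix.mul_apply]
    show QQ p e c k m = ∑ j : Fin (e + 1), (if (j : ℕ) ≤ k then a k j else 0) *
      ((dS p)^[(j : ℕ)] c) (m : ℕ)
    rw [ha k m, Fin.sum_univ_eq_sum_range (fun j => (if j ≤ (k : ℕ) then a k j else 0) *
      ((dS p)^[j] c) (m : ℕ)) (e + 1)]
    rw [← Finset.sum_subset (Finset.range_mono (show (k : ℕ) + 1 ≤ e + 1 by omega))]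
    · refine Finset.sum_congr rfl fun j hj => ?_
      rw [if_pos (by have := Finset.mem_range.mp hj; omega)]
    · intro j _ hj
      rw [if_neg (by have : ¬ j < (k : ℕ) + 1 := fun h => hj (Finset.mem_range.mpr h); omega),
        zero_mul]
  have hQ : Q.det ≠ 0 := by
    have h1 : (Q.submatrix id (Fin.revPerm : Equiv.Perm (Fin (e + 1)))).det ≠ 0 := by
      rw [Matrix.det_of_isUpperTriangular]
      · rw [Finset.prod_ne_zero_iff]
        intro k _
        have h := QQ_lc p e c hc he hz k (by omega)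
        simpa [Q, Fin.val_rev, Nat.add_sub_add_right] using h
      · intro i j hij
        have hij' : (j : ℕ) < (i : ℕ) := hij
        have h := QQ_zero p e c hz i (by omega) (e - j) (by omega)
        simpa [Q, Fin.val_rev, Nat.add_sub_add_right] using h
    rw [Matrix.det_permute'] at h1
    exact right_ne_zero_of_mul h1
  rw [hAM, Matrix.det_mul] at hQ
  exact right_ne_zero_of_mul hQ

end Pool.Agent.Lib.UM
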